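import Pool.Agent.LibDehn83.Final
import Pool.Agent.LibFR83.Final

/-!
Homology with coefficients in the reduced group C*-algebra of closed aspherical manifolds: the
Dehn function and the filling radius.
-/

set_option autoImplicit false

namespace Pool.Agent.Results.MP_48737f_gt.DehnFunction

open Pool.Agent.LibZIS Pool.Agent.LibCod83 Pool.Agent.LibDehn83 Pool.Agent.LibFR83 CategoryTheory

universe v

theorem result {G : Type} [Group G] [DecidableEq G] {E : Type v} [TopologicalSpace E]
    [PathConnectedSpace E] [MulAction G E] [ContinuousConstSMul G E]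
    (hfree : ∀ (g : G) (e : E), g • e = e → g = 1) (hE : H1Zero E)
    -- `G` satisfies Poincaré duality of dimension `n = m + 3` in degree two
    (m : ℕ) (hG : ∀ M : Rep.{0} ℤ G, Nonempty (groupCohomology M 2 ≅ groupHomology M (m + 1)))
    -- a finite symmetric set of generators; every loop bounds a sum of triangles
    (S : Finset G) (hS : Sys S) :
    -- (1) `n = 4`, the Dehn function is subexponential and not linear
    (m = 1 → (∀ ε : ℝ, 0 < ε → ∃ A : ℝ, ∀ w, Loop S w → Ar S w (A * Real.exp (ε * w.length))) →
      (¬ ∃ C : ℝ, ∀ w, Loop S w → Ar S w (C * w.length)) →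
      ∃ i, i ≤ 2 ∧ Nontrivial (Hgy (lam G) E i)) ∧
    -- (2) the cycles of degree `n - 3` do not have fillings of controlled norm and radius
    (∀ (P : ProjectiveResolution (Rep.trivial ℤ G ℤ)) (I J : Type) [Finite I] [Finite J]
        (e : P.complex.X (m + 1) ≅ Rep.free ℤ G I) (e' : P.complex.X m ≅ Rep.free ℤ G J),
      ¬ Thin S P m e e' → ∃ i, i ≤ 2 ∧ Nontrivial (Hgy (lam G) E i)) := by
  refine ⟨fun hm hsub hlin => ?_, fun P I J _ _ e e' h => ?_⟩
  · subst hm
    exact main hfree hE hG hS hsub hlin
  · exact main_thin hfree hE m hG hS P e e' h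

end Pool.Agent.Results.MP_48737f_gt.DehnFunction
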