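import Pool.Agent.LibHF46.Main
import Pool.Agent.LibHF46.Fat

/-!
Homology with coefficients in the reduced group C*-algebra of closed aspherical manifolds whose
universal cover contains optimal fillings of small codimension which form a hyperfinite family, or
fat cubes of small codimension.
-/

set_option autoImplicit false

namespace Pool.Agent.Results.MP_48737f_gt.HyperfiniteFillings

open CategoryTheory Pool.Agent.LibZIS Pool.Agent.LibFi47 Pool.Agent.LibHF46

universe v

theorem result {G : Type} [Group G] {E : Type v} [TopologicalSpace E] [PathConnectedSpace E]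
    [MulAction G E] [ContinuousConstSMul G E]
    (hfree : ∀ (g : G) (e : E), g • e = e → g = 1) (hE : H1Zero E)
    -- `G` satisfies Poincaré duality of dimension `n = k + m + 1` in the degree `k ≤ 2`
    (k m : ℕ) (hk : k ≤ 2)
    (hG : ∀ M : Rep.{0} ℤ G, Nonempty (groupCohomology M k ≅ groupHomology M (m + 1)))
    (h :
      -- (1) hyperfinite fillings which are optimal up to a factor
      (∃ (P : ProjectiveResolution (Rep.trivial ℤ G ℤ)) (I J : Type) (_ : Finite I) (_ : Finite J)
        (e : P.complex.X (m + 1) ≅ Rep.free ℤ G I) (e' : P.complex.X m ≅ Rep.free ℤ G J)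
        (T : ℕ → Sheet G I),
        Glued (bdy P m e e') T ∧ Hyperfinite T ∧ Optimal (bdy P m e e') T) ∨
      -- (2) fat cubes
      FatCubes G (m + 1)) :
    ∃ i, i ≤ k ∧ Nontrivial (Hgy (lam G) E i) := by
  rcases h with ⟨P, I, J, _, _, e, e', T, hg, hh, ho⟩ | hf
  · exact main hfree hE k m hk hG P e e' T hg hh ho
  · exact fat_main hfree hE (m + 1) k hk hG hf

end Pool.Agent.Results.MP_48737f_gt.HyperfiniteFillings
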