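import Pool.Agent.LibFi47.Main

/-!
Homology with coefficients in the reduced group C*-algebra of closed aspherical manifolds in which
the integral cycles of small codimension have no linear isoperimetric inequality.
-/

set_option autoImplicit false

namespace Pool.Agent.Results.MP_48737f_gt.LinearFilling

open CategoryTheory Pool.Agent.LibZIS Pool.Agent.LibCod83 Pool.Agent.LibDehn83
open Pool.Agent.LibRD47 Pool.Agent.LibFi47

universe v

theorem result {G : Type} [Group G] {E : Type v} [TopologicalSpace E] [PathConnectedSpace E]
    [MulAction G E] [ContinuousConstSMul G E]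
    (hfree : ∀ (g : G) (e : E), g • e = e → g = 1) (hE : H1Zero E)
    -- `G` satisfies Poincaré duality of dimension `n = k + m + 1` in the degree `k ≤ 2`
    (k m : ℕ) (hk : k ≤ 2)
    (hG : ∀ M : Rep.{0} ℤ G, Nonempty (groupCohomology M k ≅ groupHomology M (m + 1)))
    -- in the case `k = 2`: finite presentability and rapid decay
    (hT : k = 2 → ∃ S : Finset G, Sys S ∧ RD G)
    -- a resolution with finitely generated free modules in the degrees `m` and `m + 1`
    (P : ProjectiveResolution (Rep.trivial ℤ G ℤ)) {I J : Type} [Finite I] [Finite J]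
    (e : P.complex.X (m + 1) ≅ Rep.free ℤ G I) (e' : P.complex.X m ≅ Rep.free ℤ G J)
    -- the `m`-cycles have no linear isoperimetric inequality
    (hlin : ¬ LinFill P m e e') :
    ∃ i, i ≤ k ∧ Nontrivial (Hgy (lam G) E i) :=
  main hfree hE k m hk hG hT P e e' hlin

end Pool.Agent.Results.MP_48737f_gt.LinearFilling
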