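import Pool.Agent.LibMC2.FIN
import Pool.Agent.LibMC2.LZ
import Pool.Agent.LibCZ83.FIN
import Pool.Agent.LibCG83.Main

/-!
Homology with coefficients in the reduced group C*-algebra of spaces with an action of a
Poincaré duality group: measured families of cycles of codimension at most two, parametrized by an
extension of a set with amenable stabilizers by probability spaces. The clauses (2)-(7) of the
theorem are consequences of its clause (1).
-/

set_option autoImplicit false

namespace Pool.Agent.Results.MP_48737f_gt.MeasuredCycles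

open Pool.Agent.LibZIS Pool.Agent.LibCod83 Pool.Agent.LibBS2 Pool.Agent.LibMC2 Pool.Agent.LibCZ83
  Pool.Agent.LibCG83
open MeasureTheory CategoryTheory

universe v

theorem result {G : Type} [Group G] {E : Type v} [TopologicalSpace E] [PathConnectedSpace E]
    [MulAction G E] [ContinuousConstSMul G E]
    (hfree : ∀ (g : G) (e : E), g • e = e → g = 1) (hE : H1Zero E) (n : ℕ)
    -- Poincaré duality in dimension `n`
    (hG : ∀ (M : Rep.{0} ℤ G) (j : ℕ), j ≤ n →
      Nonempty (groupCohomology M j ≅ groupHomology M (n - j))) :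
    -- (1) measured cycles of codimension at most two, absolute or relative: `F` identifies `N` with
    -- the integer valued square summable functions on `X × Ω`, and `Q` is the quotient by the
    -- functions which are constant on the fibres
    (∀ (X Ω : Type) [MulAction G X] [MeasurableSpace Ω] (μ : Measure Ω) [IsProbabilityMeasure μ]
      (D : Ext G X Ω μ), (∀ x : X, Amenable (MulAction.stabilizer G x)) →
      ∀ (N : Rep.{0} ℤ G) (F : N → X → Ω → ℤ), IsLZ D N F →
      ∀ (Q : Rep.{0} ℤ G) (π : N ⟶ Q), Function.Surjective π.hom →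
      (∀ m : N, π.hom m = 0 ↔ ∀ x, ∃ r : ℤ, ∀ᵐ ω ∂μ, F m x ω = r) →
      ∀ k : ℕ, k ≤ 2 → k ≤ n →
      (Nontrivial (groupHomology N (n - k)) ∨ Nontrivial (groupHomology Q (n - k))) →
      ∃ i, i ≤ 2 ∧ Nontrivial (Hgy (lam G) E i)) ∧
    -- consequences of (1)
    -- (2) amenable subgroups of codimension at most two, for instance free abelian ones
    (∀ A : Subgroup G, Amenable A → ∀ k : ℕ, k ≤ 2 → k ≤ n →
      Nontrivial (groupHomology (Rep.trivial ℤ A ℤ) (n - k)) →
      ∃ i, i ≤ 2 ∧ Nontrivial (Hgy (lam G) E i)) ∧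
    (∀ m : ℕ, n = m + 2 → ∀ φ : Multiplicative (Fin m → ℤ) →* G, Function.Injective φ →
      ∃ i, i ≤ 2 ∧ Nontrivial (Hgy (lam G) E i)) ∧
    -- (3) actions on simplicial complexes: `K` is an invariant family of subsets of the `G`-set `V`
    -- (the simplices) whose ordered chain complex is exact in the degrees `-1, …, N`, `N < n`; `w` is
    -- an equivariant map to a `G`-set `W` with `N + 1` invariant colours, and `w v` depends only on
    -- its colour for `v` in a simplex; the intersection of the stabilizers of `p + 1` different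
    -- points `w v`, `v` in a simplex, is amenable with `p ≤ 2` or has no homology in degree `n - p`
    (∀ (V W : Type) [MulAction G V] [MulAction G W] (K : Set (Set V)),
      (∀ g : G, ∀ s ∈ K, (fun v => g • v) '' s ∈ K) →
      ∀ N : ℕ, N < n → Acyc K N → ∀ col : W → Fin (N + 1), (∀ (g : G) (x : W), col (g • x) = col x) →
      ∀ w : V → W, (∀ (g : G) (v : V), w (g • v) = g • w v) →
      (∀ s ∈ K, ∀ v ∈ s, ∀ v' ∈ s, col (w v) = col (w v') → w v = w v') →
      (∀ p ≤ N, ∀ s ∈ K, ∀ x : Fin (p + 1) → V, (∀ i, x i ∈ s) → Function.Injective (w ∘ x) →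
        (p ≤ 2 ∧ Amenable ↥(⨅ i, MulAction.stabilizer G (w (x i)))) ∨
        Subsingleton (groupHomology
          (Rep.trivial ℤ ↥(⨅ i, MulAction.stabilizer G (w (x i))) ℤ) (n - p))) →
      ∃ i, i ≤ 2 ∧ Nontrivial (Hgy (lam G) E i)) ∧
    -- (4) free abelian subgroups of codimension three: the intersection of `A` and `tAt⁻¹` has
    -- different finite indices in them
    (∀ m : ℕ, n = m + 3 → ∀ A : Subgroup G, Nonempty (A ≃* Multiplicative (Fin m → ℤ)) →
      ∀ t : G, (A ⊓ A.map (MulAut.conj t).toMonoidHom).relIndex A ≠ 0 →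
      (A ⊓ A.map (MulAut.conj t).toMonoidHom).relIndex (A.map (MulAut.conj t).toMonoidHom) ≠ 0 →
      (A ⊓ A.map (MulAut.conj t).toMonoidHom).relIndex A ≠
        (A ⊓ A.map (MulAut.conj t).toMonoidHom).relIndex (A.map (MulAut.conj t).toMonoidHom) →
      ∃ i, i ≤ 2 ∧ Nontrivial (Hgy (lam G) E i)) ∧
    -- dimension four
    (n = 4 →
      -- (5) an element which commensurates an infinite cyclic subgroup
      (∀ a t : G, (∀ m : ℤ, m ≠ 0 → a ^ m ≠ 1) → ∀ p q : ℤ, p ≠ 0 → q ≠ 0 →
        t * a ^ p * t⁻¹ = a ^ q →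
        (p.natAbs ≠ q.natAbs ∨ ∀ i : ℤ, i ≠ 0 → t ^ i ∉ Subgroup.zpowers a) →
        ∃ i, i ≤ 2 ∧ Nontrivial (Hgy (lam G) E i)) ∧
      -- (6) elementary amenable subgroups which are not locally cyclic
      (∀ S : Subgroup G, EA S → (∀ s ∈ S, ∀ m : ℤ, m ≠ 0 → s ^ m = 1 → s = 1) →
        (¬ ∀ x ∈ S, ∀ y ∈ S, ∃ z ∈ S, x ∈ Subgroup.zpowers z ∧ y ∈ Subgroup.zpowers z) →
        ∃ i, i ≤ 2 ∧ Nontrivial (Hgy (lam G) E i))) ∧
    -- (7) graphs with amenable vertex stabilizers and different numbers of outgoing and incoming edges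
    (3 ≤ n → ∀ (V B : Type) [MulAction G V] [MulAction G B] (o t : B → V),
      (∀ x : V, Amenable (MulAction.stabilizer G x)) →
      (∀ (g : G) (e : B), o (g • e) = g • o e) → (∀ (g : G) (e : B), t (g • e) = g • t e) →
      ∀ p q : ℕ, p ≠ q → (∀ v : V, (o ⁻¹' {v}).encard = q) → (∀ v : V, (t ⁻¹' {v}).encard = p) →
      ∀ φ ψ : Rep.ofMulAction ℤ G V ⟶ Rep.ofMulAction ℤ G B,
      (∀ (c : MonoidAlgebra ℤ V) (e : B), (φ.hom c : MonoidAlgebra ℤ B).coeff e = c.coeff (o e)) →
      (∀ (c : MonoidAlgebra ℤ V) (e : B), (ψ.hom c : MonoidAlgebra ℤ B).coeff e = c.coeff (t e)) →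
      ∀ u : groupHomology (Rep.ofMulAction ℤ G V) (n - 3), u ≠ 0 →
      (((groupHomology.functor ℤ G (n - 3)).map φ).hom u =
          ((groupHomology.functor ℤ G (n - 3)).map ψ).hom u ∨
        ((groupHomology.functor ℤ G (n - 3)).map φ).hom u =
          -((groupHomology.functor ℤ G (n - 3)).map ψ).hom u) →
      ∃ i, i ≤ 2 ∧ Nontrivial (Hgy (lam G) E i)) := by
  refine ⟨fun X Ω _ _ μ _ D hst N F h Q π hπ hker k hk hkn hne =>
      main_M hfree hE n hG hst D k hk hkn (hne.imp h.nontrivial_N (h.nontrivial_Q π hπ hker)),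
    fun A hA k hk hkn hne => ?_, ?_,
    fun V W _ _ K hK N hN hac col hcol w hw hcw hst =>
      main_cg hfree hE n hG V W K hK N hN hac col hcol w hw hcw hst, ?_, ?_,
    fun hn V B _ _ o t hst ho ht p q hpq hq hp φ ψ hφ hψ u hu0 hu =>
      main_graph hfree hE n hn hG hst o t ho ht p q hpq hq hp φ ψ hφ hψ u hu0 hu⟩
  · obtain ⟨i, hi, h⟩ := main_pd hfree hE n hG A hA k hk hkn hne
    exact ⟨i, hi.trans hk, h⟩
  · rintro m rfl φ hφ
    exact main_torus hfree hE m hG φ hφ
  · rintro m rfl A ⟨e⟩ t h1 h2 h3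
    exact main_Zn hfree hE m hG A e t h1 h2 h3
  · rintro rfl
    exact ⟨fun a t ha p q hp hq h hor => main_C hfree hE hG a t ha p q hp hq h hor,
      fun S hS htf hn => main_ea hfree hE hG S hS htf hn⟩

end Pool.Agent.Results.MP_48737f_gt.MeasuredCycles
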